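import Pool.Agent.Hhelper30.Forsythe.Assemble
import Pool.Agent.Hhelper30.Forsythe.Reduction
import Pool.Agent.Hhelper30.Forsythe.Abs

/-!
# An explicit counterexample to Forsythe's conjecture (restarted optimum 4-gradient iteration)

The matrix is `A = diag (1, 5, 6, 8, 14, 16, 17, 21)` and `s = 4`.  For every right-hand side `b` there is an initial
vector `x 0` whose residual has full grade `8` such that the normalised residuals with even index do not converge.
-/

set_option autoImplicit false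

namespace Pool.Agent.Results.MP_2d0f4a_an.ExplicitCounterexample

open Filter Topology Matrix

/-- The residual `b - A z`. -/
def residual {n : ℕ} (A : Matrix (Fin n) (Fin n) ℝ) (b z : Fin n → ℝ) : Fin n → ℝ := b - A *ᵥ z

/-- The vector `v` divided by its Euclidean norm. -/
noncomputable def normalised {n : ℕ} (v : Fin n → ℝ) : Fin n → ℝ := (Real.sqrt (v ⬝ᵥ v))⁻¹ • v

/-- The Krylov space spanned by `v, A v, ..., A ^ (s - 1) v`. -/
def krylov {n : ℕ} (A : Matrix (Fin n) (Fin n) ℝ) (s : ℕ) (v : Fin n → ℝ) : Submodule ℝ (Fin n → ℝ) :=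
  Submodule.span ℝ (Set.range fun i : Fin s => A ^ (i : ℕ) *ᵥ v)

/-- The grade of `v` with respect to `A`: the dimension of the span of all `A ^ j v`. -/
noncomputable def grade {n : ℕ} (A : Matrix (Fin n) (Fin n) ℝ) (v : Fin n → ℝ) : ℕ :=
  Module.finrank ℝ (Submodule.span ℝ (Set.range fun j : ℕ => A ^ j *ᵥ v))

/-- The sequence `x` is a run of the optimum `s`-gradient method for `A z = b`: with `y = (b - A x_k) / ‖b - A x_k‖`
the next vector `x_{k+1}` lies in `x_k + K_s(A, y)` and the error `A⁻¹ b - x_{k+1}` is `A`-orthogonal to `K_s(A, y)`. -/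
def IsRun {n : ℕ} (A : Matrix (Fin n) (Fin n) ℝ) (b : Fin n → ℝ) (s : ℕ) (x : ℕ → Fin n → ℝ) : Prop :=
  ∀ k, x (k + 1) - x k ∈ krylov A s (normalised (residual A b (x k))) ∧
    ∀ v ∈ krylov A s (normalised (residual A b (x k))), (A⁻¹ *ᵥ b - x (k + 1)) ⬝ᵥ (A *ᵥ v) = 0

/-- The matrix `diag (1, 5, 6, 8, 14, 16, 17, 21)`. -/
noncomputable def mat : Matrix (Fin 8) (Fin 8) ℝ := Matrix.diagonal ![1, 5, 6, 8, 14, 16, 17, 21]

open Pool.Agent.Hhelper30.Forsythe in
private theorem mat_eq : mat = Matrix.diagonal aa := by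
  unfold mat
  congr 1
  funext i
  unfold aa nd
  fin_cases i <;> norm_num

open Pool.Agent.Hhelper30.Forsythe in
private theorem mat_posDef : mat.PosDef := by
  rw [mat_eq]
  exact posDef

open Pool.Agent.Hhelper30.Forsythe in
private theorem mat_minpoly : (minpoly ℝ mat).natDegree = 8 := by
  apply le_antisymm
  · have h1 := Polynomial.natDegree_le_of_dvd (Matrix.minpoly_dvd_charpoly mat)
      (Matrix.charpoly_monic mat).ne_zero
    rw [Matrix.charpoly_natDegree_eq_dim] at h1
    simpa using h1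
  · have hint : IsIntegral ℝ (Matrix.diagonal aa) := Matrix.isIntegral _
    have hne : minpoly ℝ (Matrix.diagonal aa) ≠ 0 := minpoly.ne_zero hint
    rw [mat_eq]
    by_contra hcon
    push Not at hcon
    apply hne
    apply poly_zero _ (by omega)
    intro i
    have h1 : Polynomial.aeval (Matrix.diagonal aa) (minpoly ℝ (Matrix.diagonal aa)) = 0 :=
      minpoly.aeval _ _
    have h2 : (Matrix.diagonal aa) = Matrix.diagonalAlgHom ℝ aa := rfl
    rw [h2, Polynomial.aeval_algHom_apply] at h1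
    have h3 := congrFun (congrFun h1 i) i
    have h4 : (Polynomial.aeval aa (minpoly ℝ (Matrix.diagonalAlgHom ℝ aa))) i =
        Polynomial.aeval (aa i) (minpoly ℝ (Matrix.diagonalAlgHom ℝ aa)) := by
      have := Polynomial.aeval_algHom_apply (Pi.evalAlgHom ℝ (fun _ : Fin 8 => ℝ) i) aa
        (minpoly ℝ (Matrix.diagonalAlgHom ℝ aa))
      exact this.symm
    rw [Matrix.diagonalAlgHom_apply, Matrix.diagonal_apply_eq, h4] at h3
    rw [h2]
    rw [Polynomial.coe_aeval_eq_eval] at h3
    exact h3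

open Pool.Agent.Hhelper30.Forsythe in
private theorem indep {v : Fin 8 → ℝ} (hv : ∀ i, v i ≠ 0) :
    LinearIndependent ℝ (fun i : Fin 8 => Matrix.diagonal aa ^ (i : ℕ) *ᵥ v) := by
  rw [Fintype.linearIndependent_iff]
  intro c hc
  obtain ⟨q, hqd⟩ : ∃ q : Polynomial ℝ, q = ∑ i : Fin 8, Polynomial.C (c i) * Polynomial.X ^ (i : ℕ) :=
    ⟨_, rfl⟩
  have hdeg : q.natDegree < 8 := by
    have : q.natDegree ≤ 7 := by
      rw [hqd]
      apply Polynomial.natDegree_sum_le_of_forall_le
      intro i _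
      refine (Polynomial.natDegree_C_mul_X_pow_le _ _).trans ?_
      omega
    omega
  have hz : q = 0 := by
    apply poly_zero q hdeg
    intro j
    have h1 := congrFun hc j
    have h2 : (∑ i : Fin 8, c i • (Matrix.diagonal aa ^ (i : ℕ) *ᵥ v)) j = q.eval (aa j) * v j := by
      rw [Finset.sum_apply, hqd, Polynomial.eval_finsetSum, Finset.sum_mul]
      refine Finset.sum_congr rfl (fun i _ => ?_)
      rw [Pi.smul_apply, smul_eq_mul, pow_mulVec]
      simp
      ring
    rw [h2] at h1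
    rcases mul_eq_zero.1 h1 with h3 | h3
    · exact h3
    · exact absurd h3 (hv j)
  intro i
  have h3 : q.coeff (i : ℕ) = c i := by
    rw [hqd, Polynomial.finsetSum_coeff]
    simp only [Polynomial.coeff_C_mul, Polynomial.coeff_X_pow]
    rw [Finset.sum_eq_single i]
    · simp
    · intro j _ hj
      rw [if_neg (fun h => hj (Fin.ext h.symm)), mul_zero]
    · intro h; exact absurd (Finset.mem_univ i) h
  rw [← h3, hz, Polynomial.coeff_zero]

open Pool.Agent.Hhelper30.Forsythe in
private theorem grade_eq {v : Fin 8 → ℝ} (hv : ∀ i, v i ≠ 0) : grade mat v = 8 := by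
  unfold grade
  have h1 : Submodule.span ℝ (Set.range fun i : Fin 8 => Matrix.diagonal aa ^ (i : ℕ) *ᵥ v) = ⊤ :=
    (indep hv).span_eq_top_of_card_eq_finrank (by simp)
  have h2 : Submodule.span ℝ (Set.range fun j : ℕ => mat ^ j *ᵥ v) = ⊤ := by
    rw [eq_top_iff, ← h1, mat_eq]
    refine Submodule.span_mono ?_
    rintro _ ⟨i, rfl⟩
    exact ⟨(i : ℕ), rfl⟩
  rw [h2, finrank_top]
  simp

open Pool.Agent.Hhelper30.Forsythe in
private theorem run_of_forward (w : ℕ → Fin 8 → ℝ) (p : ℕ → Fin 4 → ℝ) (sg : ℕ → ℝ)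
    (hw : ∀ k i, 0 ≤ w k i) (hw0 : ∀ i, 0 < w 0 i) (hsum : ∀ k, ∑ i, w k i = 1)
    (hsg : ∀ k, 0 < sg k) (hp : ∀ k j, |p k j| ≤ 10)
    (horth : ∀ k (j : Fin 4), ∑ i, w k i * Q4 (p k) (nd i) * nd i ^ (j : ℕ) = 0)
    (hupd : ∀ k i, w (k + 1) i * sg k = w k i * Q4 (p k) (nd i) ^ 2)
    (hne : ¬ ∃ L, Tendsto (fun k => w (2 * k) 3) atTop (𝓝 L)) (b : Fin 8 → ℝ) :
    ∃ x : ℕ → Fin 8 → ℝ, IsRun mat b 4 x ∧ grade mat (residual mat b (x 0)) = 8 ∧
      (∀ k, residual mat b (x k) ≠ 0) ∧
      ¬ ∃ L : Fin 8 → ℝ, Tendsto (fun k => normalised (residual mat b (x (2 * k)))) atTop (𝓝 L) := by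
  obtain ⟨r, hr⟩ : ∃ r, r = res w p := ⟨_, rfl⟩
  obtain ⟨A, hA⟩ : ∃ A, A = Matrix.diagonal aa := ⟨_, rfl⟩
  obtain ⟨x, hx⟩ : ∃ x : ℕ → Fin 8 → ℝ, x = fun k i => b i / aa i - (r k i / aa i) := ⟨_, rfl⟩
  have hr0 : ∀ i, r 0 i = Real.sqrt (w 0 i) := by intro i; rw [hr]; rfl
  have hrs : ∀ k i, r (k + 1) i = Q4 (p k) (nd i) / Q4 (p k) (-11) * r k i := by
    intro k i; rw [hr]; rfl
  have hq : ∀ k, 0 < Q4 (p k) (-11) := fun k => Q4_neg_pos (p k) (hp k)
  -- residual
  have hres : ∀ k, residual mat b (x k) = r k := by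
    intro k
    funext i
    unfold residual
    rw [mat_eq, Pi.sub_apply, Matrix.mulVec_diagonal, hx]
    have := (aa_pos i).ne'
    field_simp
    ring
  have hinv : ∀ i, (mat⁻¹ *ᵥ b) i = b i / aa i := by
    have h1 : IsUnit mat := mat_posDef.isUnit
    have h2 : mat *ᵥ (mat⁻¹ *ᵥ b) = b := by
      rw [Matrix.mulVec_mulVec, Matrix.mul_nonsing_inv _ ((Matrix.isUnit_iff_isUnit_det mat).1 h1),
        Matrix.one_mulVec]
    intro i
    have h3 := congrFun h2 i
    rw [mat_eq, Matrix.mulVec_diagonal] at h3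
    rw [mat_eq, eq_div_iff (aa_pos i).ne', mul_comm]
    exact h3
  -- squares
  have hsq : ∀ k, ∃ ρ : ℝ, 0 < ρ ∧ ∀ i, r k i ^ 2 = ρ * w k i := by
    intro k
    induction k with
    | zero =>
      refine ⟨1, one_pos, fun i => ?_⟩
      rw [hr0, Real.sq_sqrt (hw 0 i), one_mul]
    | succ k ih =>
      obtain ⟨ρ, hρ, h⟩ := ih
      refine ⟨ρ * sg k / Q4 (p k) (-11) ^ 2, by have := hq k; have := hsg k; positivity, fun i => ?_⟩
      rw [hrs, mul_pow, div_pow, h]
      have h1 := hupd k i
      have h2 := (hq k).ne'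
      field_simp
      linear_combination -h1
  choose ρ hρ0 hρ using hsq
  have hdot : ∀ k, r k ⬝ᵥ r k = ρ k := by
    intro k
    unfold dotProduct
    have h1 : ∀ i, r k i * r k i = ρ k * w k i := by intro i; rw [← sq, hρ]
    rw [Finset.sum_congr rfl (fun i _ => h1 i), ← Finset.mul_sum, hsum, mul_one]
  have hsqrt : ∀ k, 0 < Real.sqrt (ρ k) := fun k => Real.sqrt_pos.2 (hρ0 k)
  have hnorm : ∀ k, normalised (residual mat b (x k)) = (Real.sqrt (ρ k))⁻¹ • r k := by
    intro k
    rw [hres]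
    unfold normalised
    rw [hdot]
  refine ⟨x, ?_, ?_, ?_, ?_⟩
  rotate_left
  · rw [hres]
    refine grade_eq fun i => ?_
    rw [hr0]
    exact (Real.sqrt_pos.2 (hw0 i)).ne'
  · intro k h0
    rw [hres] at h0
    have h1 := hdot k
    rw [h0, dotProduct_zero] at h1
    exact (hρ0 k).ne h1
  · rintro ⟨L, hL⟩
    apply hne
    refine ⟨L 3 ^ 2, ?_⟩
    simp only [hnorm] at hL
    have h1 : Tendsto (fun k => ((Real.sqrt (ρ (2 * k)))⁻¹ • r (2 * k)) 3) atTop (𝓝 (L 3)) :=
      (tendsto_pi_nhds.1 hL) 3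
    have h2 := h1.pow 2
    refine h2.congr (fun k => ?_)
    rw [Pi.smul_apply, smul_eq_mul, mul_pow, hρ, inv_pow, Real.sq_sqrt (hρ0 _).le]
    have := (hρ0 (2 * k)).ne'
    field_simp
  · intro k
    have hsk := (hsqrt k).ne'
    have hqk := (hq k).ne'
    rw [hnorm, mat_eq, ← hA]
    unfold krylov
    constructor
    · -- the step lies in the Krylov space
      obtain ⟨c, hc⟩ : ∃ c : Fin 4 → ℝ, c = ![
        -((11 + p k 0) * (11 + p k 1) * (11 + p k 2) + (11 + p k 0) * (11 + p k 1) * (11 + p k 3) +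
          (11 + p k 0) * (11 + p k 2) * (11 + p k 3) + (11 + p k 1) * (11 + p k 2) * (11 + p k 3)),
        (11 + p k 0) * (11 + p k 1) + (11 + p k 0) * (11 + p k 2) + (11 + p k 0) * (11 + p k 3) +
          (11 + p k 1) * (11 + p k 2) + (11 + p k 1) * (11 + p k 3) + (11 + p k 2) * (11 + p k 3),
        -((11 + p k 0) + (11 + p k 1) + (11 + p k 2) + (11 + p k 3)), 1] := ⟨_, rfl⟩
      have hstep : x (k + 1) - x k = ∑ i : Fin 4, (-(c i * Real.sqrt (ρ k) / Q4 (p k) (-11))) •
          (A ^ (i : ℕ) *ᵥ ((Real.sqrt (ρ k))⁻¹ • r k)) := by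
        funext j
        have ha := (aa_pos j).ne'
        rw [Finset.sum_apply]
        have h1 : ∀ i : Fin 4, ((-(c i * Real.sqrt (ρ k) / Q4 (p k) (-11))) •
            (A ^ (i : ℕ) *ᵥ ((Real.sqrt (ρ k))⁻¹ • r k))) j =
            -(c i * aa j ^ (i : ℕ)) * (r k j / Q4 (p k) (-11)) := by
          intro i
          rw [Pi.smul_apply, smul_eq_mul, hA, pow_mulVec, Pi.smul_apply, smul_eq_mul]
          field_simp
        rw [Finset.sum_congr rfl (fun i _ => h1 i), ← Finset.sum_mul, Finset.sum_neg_distrib]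
        have h2 : (∑ i : Fin 4, c i * aa j ^ (i : ℕ)) * aa j =
            Q4 (p k) (nd j) - Q4 (p k) (-11) := by
          rw [Fin.sum_univ_four, hc]
          have h3 : nd j = aa j - 11 := by unfold aa; ring
          rw [h3]
          unfold Q4
          simp only [Matrix.cons_val_zero, Matrix.cons_val_one, Matrix.cons_val]
          simp
          ring
        rw [Pi.sub_apply, hx]
        simp only
        rw [hrs]
        have h4 : ∑ i : Fin 4, c i * aa j ^ (i : ℕ) =
            (Q4 (p k) (nd j) - Q4 (p k) (-11)) / aa j := by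
          rw [eq_div_iff ha, h2]
        rw [h4]
        field_simp
        ring
      rw [hstep]
      apply Submodule.sum_mem
      intro i _
      apply Submodule.smul_mem
      exact Submodule.subset_span ⟨i, rfl⟩
    · -- orthogonality
      have herr : ∀ v : Fin 8 → ℝ, (A⁻¹ *ᵥ b - x (k + 1)) ⬝ᵥ (A *ᵥ v) = v ⬝ᵥ r (k + 1) := by
        intro v
        unfold dotProduct
        refine Finset.sum_congr rfl fun j _ => ?_
        have h1 := hinv j
        rw [mat_eq, ← hA] at h1
        rw [Pi.sub_apply, h1, hA, Matrix.mulVec_diagonal, hx]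
        have := (aa_pos j).ne'
        field_simp
        ring
      intro v hv
      rw [herr]
      induction hv using Submodule.span_induction with
      | mem v hv =>
        obtain ⟨i, rfl⟩ := hv
        unfold dotProduct
        have h1 : ∀ j, (A ^ (i : ℕ) *ᵥ ((Real.sqrt (ρ k))⁻¹ • r k)) j * r (k + 1) j =
            (ρ k / (Real.sqrt (ρ k) * Q4 (p k) (-11))) *
              (w k j * Q4 (p k) (nd j) * aa j ^ (i : ℕ)) := by
          intro j
          rw [hA, pow_mulVec, Pi.smul_apply, smul_eq_mul, hrs]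
          have h2 := hρ k j
          field_simp
          linear_combination (Q4 (p k) (nd j) * aa j ^ (i : ℕ)) * h2
        simp only
        rw [Finset.sum_congr rfl (fun j _ => h1 j), ← Finset.mul_sum]
        have h3 : ∑ j, w k j * Q4 (p k) (nd j) * aa j ^ (i : ℕ) = 0 := by
          have e0 := horth k 0
          have e1 := horth k 1
          have e2 := horth k 2
          have e3 := horth k 3
          simp only [Fin.sum_univ_eight] at e0 e1 e2 e3 ⊢
          unfold aa
          fin_cases i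
          · simp at e0 ⊢
            linear_combination e0
          · simp at e0 e1 ⊢
            linear_combination e1 + 11 * e0
          · simp at e0 e1 e2 ⊢
            linear_combination e2 + 22 * e1 + 121 * e0
          · simp at e0 e1 e2 e3 ⊢
            linear_combination e3 + 33 * e2 + 363 * e1 + 1331 * e0
        rw [h3, mul_zero]
      | zero => exact zero_dotProduct _
      | add u v _ _ hu hv => rw [add_dotProduct, hu, hv, add_zero]
      | smul c v _ hv => rw [smul_dotProduct, hv, smul_zero]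

/-- The symmetric positive definite matrix `A = diag (1, 5, 6, 8, 14, 16, 17, 21)` has a minimal polynomial of degree
`8`, and for every right-hand side `b` there is a run of the restarted optimum `4`-gradient method whose initial
residual has grade `8` and whose normalised residuals with even index do not converge. -/
theorem result : mat.PosDef ∧ (minpoly ℝ mat).natDegree = 8 ∧
    ∀ b : Fin 8 → ℝ, ∃ x : ℕ → Fin 8 → ℝ, IsRun mat b 4 x ∧ grade mat (residual mat b (x 0)) = 8 ∧
      (∀ k, residual mat b (x k) ≠ 0) ∧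
      ¬ ∃ L : Fin 8 → ℝ, Tendsto (fun k => normalised (residual mat b (x (2 * k)))) atTop (𝓝 L) := by
  refine ⟨mat_posDef, mat_minpoly, fun b => ?_⟩
  obtain ⟨r, hr⟩ := Pool.Agent.Hhelper30.Forsythe.exists_ref
  obtain ⟨B, c0, c1, c2, hc0, hc, H⟩ := Pool.Agent.Hhelper30.Forsythe.segments_of_abs r hr
    (fun C cc hC hcc => Pool.Agent.Hhelper30.Forsythe.abs_main _
      (Pool.Agent.Hhelper30.Forsythe.goodCoef_ref r hr) C cc hC hcc)
  obtain ⟨w, p, sg, h1, h2, h3, h4, h5, h6, h7, h8⟩ :=
    Pool.Agent.Hhelper30.Forsythe.forward_of_segments B c0 c1 c2 hc0 hc H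
  exact run_of_forward w p sg h1 h2 h3 h4 h5 h6 h7 h8 b

end Pool.Agent.Results.MP_2d0f4a_an.ExplicitCounterexample
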